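import Pool.Agent.MP_961ca8_al.H18.Iface2

/-! Module C: the concrete ring satisfies `Core`. -/

namespace Pool.Agent.MP_961ca8_al.H86

open Cardinal Pool.Agent.MP_961ca8_al.H18

lemma card_TT {D : Type} [CommRing D] (hD : ℵ₀ ≤ Cardinal.mk D) (w : D) (μ : Fin 3 → D) :
    Cardinal.mk (TT w μ) ≤ Cardinal.mk D := by
  have hmv : ∀ (R : Type) [CommRing R], Cardinal.mk R ≤ Cardinal.mk D →
      Cardinal.mk (MvPolynomial (Fin 3) R) ≤ Cardinal.mk D := fun R _ h =>
    MvPolynomial.cardinalMk_le_max.trans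
      (max_le (max_le h ((Cardinal.lt_aleph0_of_finite _).le.trans hD)) hD)
  have hp : ∀ (R : Type) [CommRing R], Cardinal.mk R ≤ Cardinal.mk D →
      Cardinal.mk (Polynomial R) ≤ Cardinal.mk D := fun R _ h =>
    Polynomial.cardinalMk_le_max.trans (max_le h hD)
  have h1 : Cardinal.mk (Pm D) ≤ Cardinal.mk D := hp _ (hp _ (hmv _ le_rfl))
  have h2 : Cardinal.mk (T3 w) ≤ Cardinal.mk D :=
    (Cardinal.mk_le_of_surjective (mk3_surj w)).trans (hmv _ (hmv _ le_rfl))
  refine (Cardinal.mk_subtype_le _).trans ?_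
  rw [Cardinal.mk_prod, Cardinal.lift_id, Cardinal.lift_id]
  exact (mul_le_mul' h1 h2).trans (Cardinal.mul_eq_self hD).le

lemma card_O (k : Type) [Field k] : ℵ₀ < Cardinal.mk (Polynomial (PowerSeries k)) := by
  classical
  have : Function.Injective fun A : Set ℕ =>
      (Polynomial.C (PowerSeries.mk fun n => if n ∈ A then (1 : k) else 0)) := by
    intro A B h
    have h1 := Polynomial.C_injective h
    ext n
    have h2 := congrArg (PowerSeries.coeff n) h1
    simp only [PowerSeries.coeff_mk] at h2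
    by_cases a : n ∈ A <;> by_cases b : n ∈ B <;> simp_all
  refine lt_of_lt_of_le ?_ (Cardinal.mk_le_of_injective this)
  rw [Cardinal.mk_set, Cardinal.mk_nat]
  exact Cardinal.cantor _

lemma frob_loc {T S : Type} [CommRing T] [CommRing S] [Algebra T S] (s : T)
    [IsLocalization.Away s S] (I : Ideal S) (q : ℕ) {z : S} (hz : z ∈ frobPow I q) :
    ∃ n : ℕ, ∃ t ∈ frobPow (I.comap (algebraMap T S)) q,
      z * algebraMap T S s ^ n = algebraMap T S t := by
  induction hz using Submodule.span_induction with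
  | mem x hx =>
    obtain ⟨x, hx, rfl⟩ := hx
    obtain ⟨n, t, ht⟩ := IsLocalization.Away.surj s x
    refine ⟨n * q, t ^ q, Ideal.subset_span ⟨t, ?_, rfl⟩, by rw [map_pow, ← ht]; ring⟩
    show algebraMap T S t ∈ I
    rw [← ht]; exact I.mul_mem_right _ hx
  | zero => exact ⟨0, 0, Ideal.zero_mem _, by simp⟩
  | add x y _ _ hx hy =>
    obtain ⟨n, t, h1, h2⟩ := hx
    obtain ⟨n', t', h1', h2'⟩ := hy
    refine ⟨n + n', s ^ n' * t + s ^ n * t',
      Ideal.add_mem _ (Ideal.mul_mem_left _ _ h1) (Ideal.mul_mem_left _ _ h1'), ?_⟩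
    simp only [map_add, map_mul, map_pow, ← h2, ← h2']; ring
  | smul a x _ hx =>
    obtain ⟨n, t, h1, h2⟩ := hx
    obtain ⟨n', t', ht⟩ := IsLocalization.Away.surj s a
    refine ⟨n + n', t' * t, Ideal.mul_mem_left _ _ h1, ?_⟩
    simp only [map_mul, smul_eq_mul, ← h2, ← ht]; ring

lemma abs_fail (hM : MIStmt) {p : ℕ} (hp : p.Prime) {T S K : Type} [CommRing T] [CommRing S]
    [Field K] [Algebra T S] (s : T) [IsLocalization.Away s S] [IsNoetherianRing T] [CharP K p]
    (ι : K →+* S) (ε : S →+* K) (hει : ∀ x, ε (ι x) = x) (x y : T)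
    (hx : ε (algebraMap T S x) = 0) (hy : ε (algebraMap T S y) = 0)
    (hs0 : ∀ t, s * t = 0 → t = 0) (hx0 : ∀ t, x * t = 0 → t = 0) (hy0 : ∀ t, x ∣ y * t → x ∣ t)
    (hφ : ∀ (e : ℕ) (φ : S →+ S),
      (∀ r t : S, φ (r ^ p ^ e * t) - r * φ t ∈ (RingHom.ker ε) ^ 10) →
      ε (φ (algebraMap T S x)) = 0) :
    ∃ (I : Ideal T) (u : T) (L : ℕ), x ^ L ∈ I ∧
      (∀ (n : ℕ) σ, ε (algebraMap T S σ) ≠ 0 → σ * s ^ n * u ∉ I) ∧
      ∀ e : ℕ, ∃ n : ℕ, s ^ n * x * u ^ p ^ e ∈ frobPow I (p ^ e) := by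
  have hjs : IsUnit (algebraMap T S s) := IsLocalization.Away.algebraMap_isUnit s
  have hj : Function.Injective (algebraMap T S) :=
    IsLocalization.injective S (M := Submonoid.powers s) (by
      rw [Submonoid.powers_le, mem_nonZeroDivisors_iff_left]; exact hs0)
  have hsurj := IsLocalization.Away.surj (S := S) s
  have : Nontrivial S := ε.domain_nontrivial
  have : CharP S p := charP_of_injective_ringHom ι.injective p
  have : IsNoetherianRing S :=
    IsLocalization.isNoetherianRing (Submonoid.powers s) S inferInstance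
  let _ : Algebra K S := ι.toAlgebra
  let εa : S →ₐ[K] K := { ε with commutes' := hει }
  obtain ⟨I, u, L, h1, h2, h3⟩ := hM p K S εa 10 _ _ _ hp (by norm_num) hx hy
    (fun t ht => by
      obtain ⟨n, t', e⟩ := hsurj t
      have : t' = 0 := hx0 t' (hj (by
        rw [map_mul, ← e, ← mul_assoc, ht, zero_mul, map_zero]))
      rw [this, map_zero] at e
      exact (hjs.pow n).mul_left_eq_zero.1 e)
    (fun t ⟨z, ht⟩ => by
      obtain ⟨n, t', e⟩ := hsurj t
      obtain ⟨n', z', e'⟩ := hsurj z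
      have := map_dvd (algebraMap T S) (hy0 (t' * s ^ n') ⟨z' * s ^ n, hj (by
        simp only [map_mul, map_pow, ← e, ← e']
        linear_combination (algebraMap T S s ^ n * algebraMap T S s ^ n') * ht)⟩)
      rw [map_mul, map_pow, ← e, mul_assoc] at this
      exact (((hjs.pow n).mul (hjs.pow n')).dvd_mul_right).1 this) hφ
  obtain ⟨k, u', e⟩ := hsurj u
  refine ⟨I.comap (algebraMap T S), u', L, by simpa using h1, fun n σ hσ hI => hσ ?_,
    fun e' => ?_⟩
  · have h4 : ε (algebraMap T S (σ * s ^ n * s ^ k)) = 0 := h2 _ (by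
      rw [Ideal.mem_comap, map_mul, ← e] at hI
      rw [map_mul, map_pow, mul_assoc, mul_comm _ u]; exact hI)
    simp only [map_mul, map_pow] at h4
    exact ((hjs.map ε).pow n).mul_left_eq_zero.1 (((hjs.map ε).pow k).mul_left_eq_zero.1 h4)
  · obtain ⟨n, t, h4, h5⟩ :=
      frob_loc s I _ (Ideal.mul_mem_left _ (algebraMap T S s ^ (k * p ^ e')) (h3 e'))
    refine ⟨n, ?_⟩
    have : s ^ n * x * u' ^ p ^ e' = t := hj (by
      simp only [map_mul, map_pow, ← e, ← h5]
      ring)
    rw [this]; exact h4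

lemma exists_away {T : Type} [CommRing T] (s : T) :
    ∃ (S : Type) (_ : CommRing S) (_ : Algebra T S), IsLocalization.Away s S :=
  ⟨Localization.Away s, inferInstance, inferInstance, inferInstance⟩

lemma fail_of (hL : LpStmt) (hM : MIStmt) {p : ℕ} (hp : p.Prime) {O : Type} [CommRing O]
    [IsDomain O] [IsDiscreteValuationRing O] [CharP O p] {s : O} (hs : Irreducible s)
    (o : Fin 3 → O) (ho : o 0 = 1)
    (hind : ∀ a b a' b' : ℕ, o 1 ^ a * o 2 ^ b = o 1 ^ a' * o 2 ^ b' → a = a' ∧ b = b')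
    (μ : Fin 3 → Polynomial O) (hμ : ∀ i, μ i = Polynomial.C (o i))
    [IsNoetherianRing (TT Polynomial.X μ)]
    (hz1 : ∀ c x : TT Polynomial.X μ, dpart _ μ c ≠ 0 → c * x = 0 → x = 0)
    (hz2 : ∀ t : TT Polynomial.X μ, cst _ μ Polynomial.X ∣ yT _ μ 0 * t → cst _ μ Polynomial.X ∣ t) :
    ∃ (I : Ideal (TT Polynomial.X μ)) (u : TT Polynomial.X μ) (L : ℕ),
      cst _ μ Polynomial.X ^ L ∈ I ∧
      (∀ (n : ℕ) σ, (dpart _ μ σ).coeff 0 ≠ 0 → σ * cst _ μ (Polynomial.C s) ^ n * u ∉ I) ∧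
      ∀ e : ℕ, ∃ n : ℕ, cst _ μ (Polynomial.C s) ^ n * cst _ μ Polynomial.X * u ^ p ^ e ∈
        frobPow I (p ^ e) := by
  let K := FractionRing O
  let κ : Polynomial O →+* K := (algebraMap O K).comp Polynomial.constantCoeff
  have hκC : ∀ a, κ (Polynomial.C a) = algebraMap O K a := fun a => by simp [κ]
  have hκw : κ Polynomial.X = 0 := by simp [κ]
  have hinj : Function.Injective (algebraMap O K) := IsFractionRing.injective O K
  have hκs : IsUnit (κ (Polynomial.C s)) := by
    rw [hκC]; exact ((map_ne_zero_iff _ hinj).2 hs.ne_zero).isUnit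
  set sT := cst Polynomial.X μ (Polynomial.C s) with hsT
  obtain ⟨S, _, _, _⟩ := exists_away sT
  let j : TT Polynomial.X μ →+* S := algebraMap _ S
  have hjs : IsUnit (j sT) := IsLocalization.Away.algebraMap_isUnit sT
  let g : O →+* S := j.comp ((cst Polynomial.X μ).comp Polynomial.C)
  have hg : ∀ y : nonZeroDivisors O, IsUnit (g y) := fun y => by
    obtain ⟨n, u, hu⟩ := IsDiscreteValuationRing.eq_unit_mul_pow_irreducible
      (nonZeroDivisors.ne_zero y.2) hs
    rw [hu, map_mul, map_pow]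
    exact (u.isUnit.map g).mul (hjs.pow n)
  let ι : K →+* S := IsLocalization.lift hg
  have hι : ∀ a, ι (algebraMap O K a) = j (cst _ μ (Polynomial.C a)) := fun a =>
    IsLocalization.lift_eq hg a
  have hπ : ∀ a, piT Polynomial.X μ κ (cst _ μ (Polynomial.C a)) =
      Polynomial.C (Polynomial.C (MvPolynomial.C (κ (Polynomial.C a)))) := fun a => by
    simp [piT]
  have hρ : ∀ a, rhoT Polynomial.X μ κ hκw (cst _ μ (Polynomial.C a)) =
      Polynomial.C (MvPolynomial.C (κ (Polynomial.C a))) := fun a => by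
    simp [rhoT, rho3]
  have u1 : IsUnit ((κ.comp (dpart Polynomial.X μ)) sT) := by simpa [hsT] using hκs
  have u2 : IsUnit (piT Polynomial.X μ κ sT) := by
    rw [hsT, hπ]; exact ((hκs.map _).map _).map _
  have u3 : IsUnit (rhoT Polynomial.X μ κ hκw sT) := by
    rw [hsT, hρ]; exact (hκs.map _).map _
  let ε : S →+* K := IsLocalization.Away.lift sT u1
  let πS : S →+* Pm K :=
    IsLocalization.Away.lift (P := Pm K) (g := piT Polynomial.X μ κ) sT u2
  let ρS : S →+* Polynomial (BB K) := IsLocalization.Away.lift sT u3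
  have hε : ∀ t, ε (j t) = κ (dpart _ μ t) := IsLocalization.Away.lift_eq sT u1
  have hπS : ∀ t, πS (j t) = piT _ μ κ t := IsLocalization.Away.lift_eq sT u2
  have hρS : ∀ t, ρS (j t) = rhoT _ μ κ hκw t := IsLocalization.Away.lift_eq sT u3
  have hει : ∀ x, ε (ι x) = x := fun x => DFunLike.congr_fun
    (IsLocalization.ringHom_ext (nonZeroDivisors O) (j := ε.comp ι) (k := RingHom.id K)
      (RingHom.ext fun a => by simp [hι, hε, hκC])) x
  have hπι : ∀ x, πS (ι x) = Polynomial.C (Polynomial.C (MvPolynomial.C x)) := fun x =>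
    DFunLike.congr_fun
    (IsLocalization.ringHom_ext (nonZeroDivisors O) (j := πS.comp ι)
      (k := Polynomial.C.comp (Polynomial.C.comp MvPolynomial.C))
      (RingHom.ext fun a => by simp only [RingHom.comp_apply, hι, hπS, hπ, hκC])) x
  have hρι : ∀ x, ρS (ι x) = Polynomial.C (MvPolynomial.C x) := fun x =>
    DFunLike.congr_fun
    (IsLocalization.ringHom_ext (nonZeroDivisors O) (j := ρS.comp ι)
      (k := Polynomial.C.comp MvPolynomial.C)
      (RingHom.ext fun a => by simp only [RingHom.comp_apply, hι, hρS, hρ, hκC])) x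
  have hsurj : ∀ y : S, ∃ (n : ℕ) (t : TT Polynomial.X μ), y * j sT ^ n = j t :=
    IsLocalization.Away.surj sT
  have : CharP K p := charP_of_injective_ringHom hinj p
  obtain ⟨I, u, L, h1, h2, h3⟩ := abs_fail hM hp sT ι ε hει (cst _ μ Polynomial.X) (yT _ μ 0)
    (by rw [hε, dpart_cst, hκw]) (by rw [hε]; simp [dpart_def, yT])
    (fun x => hz1 _ x (by simpa [hsT] using hs.ne_zero)) (fun x => hz1 _ x (by simp)) hz2
    (hL p _ K S _ μ κ hκw j ι ε πS ρS hp (by rw [hμ, ho, map_one])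
      (fun a b a' b' h => hind a b a' b' (hinj (by simpa only [hμ, hκC, map_mul, map_pow] using h)))
      hπS hρS hε hπι hρι hει (fun i => by rw [hμ, hκC, hι])
      (fun y => by
        obtain ⟨n, t, e⟩ := hsurj y
        refine ⟨(algebraMap O K s ^ n)⁻¹, t, ?_⟩
        rw [← e, show j sT = _ from (hι s).symm, ← map_pow ι, mul_left_comm, ← map_mul,
          inv_mul_cancel₀, map_one, mul_one]
        exact pow_ne_zero _ ((map_ne_zero_iff _ hinj).2 hs.ne_zero)))
  exact ⟨I, u, L, h1, fun n σ hσ => h2 n σ fun e =>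
    hσ ((map_eq_zero_iff _ hinj).1 ((hε σ).symm.trans e)), h3⟩

theorem core (hN : NoethStmt) (hZ : NzdStmt) (hS : SplitStmt) (hL : LpStmt) (hM : MIStmt)
    (hT : TraceStmt) (hU : MuStmt) : CoreStmt := by
  intro p hp
  have := Fact.mk hp
  obtain ⟨μ0, hμ1, hμ2, hμ3⟩ := hU p
  let O := PowerSeries (ZMod p)
  have : CharP O p := charP_of_injective_ringHom (PowerSeries.C_injective) p
  let o : Fin 3 → O := ![1, 1 + PowerSeries.X, μ0]
  let μ : Fin 3 → Polynomial O := fun i => Polynomial.C (o i)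
  have hunit : ∀ i, IsUnit (μ i) := fun i => by
    refine IsUnit.map _ (PowerSeries.isUnit_iff_constantCoeff.2 ?_)
    fin_cases i <;> simp [o, hμ1]
  let ev : Polynomial O →+* ZMod p := PowerSeries.constantCoeff.comp Polynomial.constantCoeff
  have hn := hN _ Polynomial.X μ hunit
  obtain ⟨hz1, hz2⟩ := hZ _ Polynomial.X μ Polynomial.prime_X
  have hsurj : Function.Surjective (dpart Polynomial.X μ) := fun d => ⟨_, dpart_cst _ _ d⟩
  have hcard : Cardinal.mk (TT Polynomial.X μ ⧸ RingHom.ker (dpart Polynomial.X μ)) =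
      Cardinal.mk (Polynomial O) :=
    (RingHom.quotientKerEquivOfSurjective hsurj).toEquiv.cardinal_eq
  have hs0 : (Polynomial.C PowerSeries.X : Polynomial O) ≠ 0 :=
    Polynomial.C_ne_zero.2 PowerSeries.X_ne_zero
  refine ⟨TT Polynomial.X μ, inferInstance, RingHom.ker (dpart _ μ),
    RingHom.ker (ev.comp (dpart _ μ)), cst _ μ (Polynomial.C PowerSeries.X), cst _ μ Polynomial.X,
    hn, charP_of_injective_ringHom (Function.LeftInverse.injective (dpart_cst _ μ)) p,
    RingHom.ker_isPrime _, RingHom.ker_isMaximal_of_surjective _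
      (fun a => ⟨cst _ μ (Polynomial.C (PowerSeries.C a)), by simp [ev, O]⟩),
    fun x hx => ?_, ?_, ?_, ?_, ?_, fun c hc x => hz1 c x hc, ?_, ?_, ?_, ?_⟩
  · rw [RingHom.mem_ker] at hx ⊢; simp [hx]
  · simp [RingHom.mem_ker, ev, O]
  · simpa [RingHom.mem_ker] using PowerSeries.X_ne_zero
  · simp [RingHom.mem_ker, ev]
  · simp [RingHom.mem_ker]
  · rw [hcard]; exact card_O _
  · rw [hcard]; exact card_TT (card_O _).le _ _
  · refine hS p _ (ZMod p) Polynomial.X _ μ ev hp (by simp [μ, o]) hunit hs0 (fun C => ?_) (hT p)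
    obtain ⟨A, P, a, b, c⟩ := hμ2 C
    exact ⟨A, P, a, b, by simpa [μ, o] using map_dvd (Polynomial.C : O →+* _) c⟩
  · obtain ⟨I, u, L, a, b, c⟩ := fail_of hL hM hp PowerSeries.X_irreducible o rfl hμ3 μ
      (fun _ => rfl) hz1 hz2
    exact ⟨I, u, L, a, fun n σ hσ => b n σ fun e => hσ (by simp [RingHom.mem_ker, ev, e]), c⟩

end Pool.Agent.MP_961ca8_al.H86
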