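import Pool.Agent.MP_961ca8_al.H18.Iface

/-! Module M: from the absence of approximate splittings to an ideal. -/

namespace Pool.Agent.MP_961ca8_al.H86

open Finset Pool.Agent.MP_961ca8_al.H18

lemma exists_theta {K S : Type} [Field K] [CommRing S] (F : K →+* S) (J : Ideal S) {z : S}
    (hz : z ∉ J) : ∃ θ : S →+ K, (∀ k t, θ (F k * t) = k * θ t) ∧ (∀ t ∈ J, θ t = 0) ∧ θ z ≠ 0 := by
  let _ := F.toAlgebra
  obtain ⟨θ, h1, h2⟩ := (J.restrictScalars K).exists_le_ker_of_notMem (v := z) hz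
  exact ⟨θ.toAddMonoidHom, fun k t => θ.map_smul k t, fun t ht => h2 ht, h1⟩

lemma dvd_of_dvd_pow_mul {S : Type} [CommRing S] {x y : S} (hy : ∀ t : S, x ∣ y * t → x ∣ t)
    (n : ℕ) : ∀ t : S, x ∣ y ^ n * t → x ∣ t := by
  induction n with
  | zero => intro t h; simpa using h
  | succ n ih => intro t h; exact ih t (hy _ (by rwa [← mul_assoc, ← pow_succ']))

lemma pow_nzd {S : Type} [CommRing S] {x : S} (hx : ∀ t : S, x * t = 0 → t = 0) (n : ℕ) :
    ∀ t : S, x ^ n * t = 0 → t = 0 := by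
  induction n with
  | zero => intro t h; simpa using h
  | succ n ih => intro t h; exact ih t (hx _ (by rwa [← mul_assoc, ← pow_succ']))

lemma pow_dvd_of {S : Type} [CommRing S] {x y : S} (hx : ∀ t : S, x * t = 0 → t = 0)
    (hy : ∀ t : S, x ∣ y * t → x ∣ t) (n : ℕ) : ∀ t : S, x ^ n ∣ y * t → x ^ n ∣ t := by
  induction n with
  | zero => intro t _; simp
  | succ n ih =>
    intro t h
    obtain ⟨s, rfl⟩ := ih t ((pow_dvd_pow x n.le_succ).trans h)
    obtain ⟨a, ha⟩ := h
    have : y * s - x * a = 0 := pow_nzd hx n _ (by linear_combination ha)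
    obtain ⟨b, rfl⟩ := hy s ⟨a, sub_eq_zero.1 this⟩
    exact ⟨b, by ring⟩

lemma syz {S : Type} [CommRing S] {x y : S} (hx : ∀ t : S, x * t = 0 → t = 0)
    (hy : ∀ t : S, x ∣ y * t → x ∣ t) {P : Ideal S} (hxP : x ∈ P) (hyP : y ∈ P) (k : ℕ) :
    ∀ t : Fin (k + 1) → S, ∑ i, t i * (x ^ (i : ℕ) * y ^ (k - i)) = 0 → ∀ i, t i ∈ P := by
  induction k with
  | zero =>
    intro t h i
    have : t 0 = 0 := by simpa using h
    rw [Subsingleton.elim (α := Fin 1) i 0, this]; exact P.zero_mem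
  | succ k ih =>
    intro t h
    rw [Fin.sum_univ_succ] at h
    have e : ∑ i : Fin (k + 1), t i.succ * (x ^ (i.succ : ℕ) * y ^ (k + 1 - i.succ)) =
        x * ∑ i : Fin (k + 1), t i.succ * (x ^ (i : ℕ) * y ^ (k - i)) := by
      rw [mul_sum]
      refine sum_congr rfl fun i _ => ?_
      rw [Fin.val_succ, Nat.add_sub_add_right]; ring
    rw [e] at h
    simp only [Fin.val_zero, pow_zero, one_mul, Nat.sub_zero] at h
    obtain ⟨s, hs⟩ := dvd_of_dvd_pow_mul hy (k + 1) (t 0)
      ⟨-∑ i : Fin (k + 1), t i.succ * (x ^ (i : ℕ) * y ^ (k - i)), by linear_combination h⟩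
    have h2 := ih (fun i => t i.succ + if i = 0 then s * y else 0) (hx _ (by
      simp only [add_mul, sum_add_distrib, ite_mul, zero_mul, sum_ite_eq', mem_univ, if_true,
        Fin.val_zero, pow_zero, one_mul, Nat.sub_zero]
      rw [hs] at h
      linear_combination h))
    intro i
    refine Fin.cases ?_ (fun j => ?_) i
    · rw [hs]; exact P.mul_mem_right _ hxP
    · have := h2 j
      split_ifs at this
      · simpa using P.sub_mem this (P.mul_mem_left s hyP)
      · simpa using this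

lemma exists_fg {K S : Type} [Field K] [CommRing S] [Algebra K S] [IsNoetherianRing S]
    (ε : S →ₐ[K] K) (n : ℕ) :
    ∃ G : Submodule K S, G.FG ∧ ∀ s, ∃ g ∈ G, s - g ∈ RingHom.ker ε ^ n := by
  classical
  induction n with
  | zero => exact ⟨⊥, Submodule.fg_bot, fun s => ⟨0, by simp, by simp⟩⟩
  | succ n ih =>
    obtain ⟨G, hG, h⟩ := ih
    obtain ⟨T, hT⟩ := (isNoetherianRing_iff_ideal_fg S).1 inferInstance (RingHom.ker ε ^ n)
    refine ⟨G ⊔ Submodule.span K T, hG.sup ⟨T, rfl⟩, fun s => ?_⟩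
    obtain ⟨g, hg, hs⟩ := h s
    rw [← hT] at hs
    obtain ⟨r, -, hr⟩ := Submodule.mem_span_finset.1 hs
    refine ⟨g + ∑ t ∈ T, ε (r t) • t, Submodule.add_mem_sup hg (Submodule.sum_mem _ fun t ht =>
      Submodule.smul_mem _ _ (Submodule.subset_span ht)), ?_⟩
    rw [← sub_sub, ← hr, ← sum_sub_distrib]
    refine Ideal.sum_mem _ fun t ht => ?_
    rw [pow_succ', smul_eq_mul, Algebra.smul_def, ← sub_mul]
    refine Ideal.mul_mem_mul ?_ (hT ▸ Ideal.subset_span ht)
    simp [RingHom.mem_ker]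

lemma exists_coord {K S : Type} [Field K] [CommRing S] [Algebra K S] [IsNoetherianRing S]
    (ε : S →ₐ[K] K) {N : ℕ} (hN : 0 < N) :
    ∃ (k : ℕ) (v : Fin (k + 1) → S) (m : Fin (k + 1) → S →ₗ[K] K),
      (∀ i, ∀ s ∈ RingHom.ker ε ^ N, m i s = 0) ∧
      ∀ s, s - ∑ i, algebraMap K S (m i s) * v i ∈ RingHom.ker ε ^ N := by
  obtain ⟨G, hG, h⟩ := exists_fg ε N
  let W : Submodule K S := (RingHom.ker ε ^ N).restrictScalars K
  have : Module.Finite K (S ⧸ W) := by
    refine ⟨?_⟩
    have : G.map W.mkQ = ⊤ := by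
      rw [eq_top_iff]
      intro z _
      obtain ⟨s, rfl⟩ := W.mkQ_surjective z
      obtain ⟨g, hg, hs⟩ := h s
      exact ⟨g, hg, ((Submodule.Quotient.eq W).2 hs).symm⟩
    rw [← this]; exact hG.map _
  have : Nontrivial (S ⧸ W) := Submodule.Quotient.nontrivial_iff.2 fun e => by
    have h1 : (1 : S) ∈ W := by rw [e]; trivial
    have h2 : (1 : S) ∈ RingHom.ker ε := Ideal.pow_le_self hN.ne' h1
    simp [RingHom.mem_ker] at h2
  obtain ⟨k, hk⟩ : ∃ k, Module.finrank K (S ⧸ W) = k + 1 :=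
    ⟨_, (Nat.succ_pred_eq_of_pos Module.finrank_pos).symm⟩
  let b := Module.finBasisOfFinrankEq K (S ⧸ W) hk
  choose v hv using fun i => W.mkQ_surjective (b i)
  refine ⟨k, v, fun i => b.coord i ∘ₗ W.mkQ, fun i s hs => ?_, fun s => ?_⟩
  · have : W.mkQ s = 0 := (Submodule.Quotient.mk_eq_zero W).2 hs
    simp only [LinearMap.comp_apply, this, map_zero]
  · refine (Submodule.Quotient.mk_eq_zero W).1 (show W.mkQ _ = 0 from ?_)
    simp only [← Algebra.smul_def, map_sub, map_sum, map_smul, hv, LinearMap.comp_apply,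
      Module.Basis.coord_apply]
    rw [b.sum_repr, sub_self]

theorem mi : MIStmt := by
  intro p K S _ _ _ _ _ ε N x y c hp hN hx hy hx0 hy0 hφ
  classical
  have := Fact.mk hp
  obtain ⟨k, v, m, hm, hv⟩ := exists_coord ε hN
  have hxP : x ^ N ∈ RingHom.ker ε ^ N := Ideal.pow_mem_pow (RingHom.mem_ker.2 hx) N
  have hyP : y ^ N ∈ RingHom.ker ε ^ N := Ideal.pow_mem_pow (RingHom.mem_ker.2 hy) N
  let a : Fin (k + 1) → S := fun i => (x ^ N) ^ (i : ℕ) * (y ^ N) ^ (k - i)
  have hsyz : ∀ t : Fin (k + 1) → S, ∑ i, t i * a i = 0 → ∀ i, t i ∈ RingHom.ker ε ^ N :=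
    syz (pow_nzd hx0 N) (dvd_of_dvd_pow_mul (pow_dvd_of hx0 hy0 N) N) hxP hyP k
  have hmm : ∀ i (κ : K) s, m i (algebraMap K S κ * s) = κ * m i s := fun i κ s => by
    rw [← Algebra.smul_def, map_smul, smul_eq_mul]
  have hε : ∀ s, ∑ i, m i s * ε (v i) = ε s := fun s => by
    have h1 : ε (s - ∑ i, algebraMap K S (m i s) * v i) = 0 :=
      RingHom.mem_ker.1 (Ideal.pow_le_self hN.ne' (hv s))
    rw [map_sub, sub_eq_zero] at h1
    rw [h1]; simp
  let I : Ideal S :=
    { carrier := {z | ∃ t : Fin (k + 1) → S, z = ∑ i, t i * a i ∧ ∀ w, ∑ i, m i (t i * w) = 0}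
      add_mem' := by
        rintro _ _ ⟨t, rfl, ht⟩ ⟨t', rfl, ht'⟩
        exact ⟨t + t', by simp [add_mul, sum_add_distrib],
          fun w => by simp [add_mul, sum_add_distrib, ht w, ht' w]⟩
      zero_mem' := ⟨0, by simp, by simp⟩
      smul_mem' := by
        rintro r _ ⟨t, rfl, ht⟩
        exact ⟨fun i => r * t i, by simp [mul_sum, mul_assoc],
          fun w => by simpa [mul_assoc, mul_left_comm] using ht (r * w)⟩ }
  refine ⟨I, ∑ i, algebraMap K S (ε (v i)) * a i, N + N * k, ?_, ?_, fun e => ?_⟩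
  · refine ⟨fun i => if i = Fin.last k then x ^ N else 0, ?_, fun w => sum_eq_zero fun i _ => ?_⟩
    · simp [a, pow_add, pow_mul]
    · refine hm _ _ (Ideal.mul_mem_right _ _ ?_)
      dsimp only
      split_ifs
      · exact hxP
      · exact Ideal.zero_mem _
  · rintro σ ⟨t, ht, ht'⟩
    have h1 := hsyz (fun i => algebraMap K S (ε (v i)) * σ - t i) (by
      simp only [sub_mul, sum_sub_distrib, ← ht, mul_sum]
      rw [sub_eq_zero]
      exact sum_congr rfl fun i _ => by ring)
    rw [← hε, ← ht' 1]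
    refine sum_congr rfl fun i _ => ?_
    have := hm i _ (h1 i)
    rw [map_sub, hmm, sub_eq_zero] at this
    rw [mul_one, ← this, mul_comm]
  · by_contra hc
    obtain ⟨θ, h1, h2, h3⟩ :=
      exists_theta ((iterateFrobenius S p e).comp (algebraMap K S)) _ hc
    simp only [RingHom.comp_apply, iterateFrobenius_def] at h1
    have hsum : ∀ (κ : Fin (k + 1) → K) (t : S),
        θ (t * (∑ i, algebraMap K S (κ i) * a i) ^ p ^ e) = ∑ i, κ i * θ (t * a i ^ p ^ e) := by
      intro κ t
      rw [sum_pow_char_pow, mul_sum, map_sum]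
      exact sum_congr rfl fun i _ => by rw [mul_pow, mul_left_comm, h1]
    let φ : S →+ S :=
      { toFun := fun t => ∑ i, algebraMap K S (θ (t * a i ^ p ^ e)) * v i
        map_zero' := by simp
        map_add' := fun s t => by simp [add_mul, sum_add_distrib] }
    have hφ' : ∀ t, φ t = ∑ i, algebraMap K S (θ (t * a i ^ p ^ e)) * v i := fun _ => rfl
    refine h3 ?_
    rw [hsum, ← hφ e φ fun r t => ?_]
    · simp [hφ', mul_comm]
    · have hI : ∀ j, r * a j - ∑ i, algebraMap K S (m j (r * v i)) * a i ∈ I := fun j =>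
        ⟨fun i => (if i = j then r else 0) - algebraMap K S (m j (r * v i)), by
          simp [sub_mul, sum_sub_distrib], fun w => by
          have := hm j _ (Ideal.mul_mem_left _ r (hv w))
          rw [mul_sub, map_sub, mul_sum, map_sum] at this
          rw [← this]
          simp only [sub_mul, map_sub, sum_sub_distrib, hmm]
          congr 1
          · rw [sum_eq_single j] <;> simp +contextual
          · exact sum_congr rfl fun i _ => by rw [mul_left_comm, hmm, mul_comm]⟩
      have hθ : ∀ j, θ (r ^ p ^ e * t * a j ^ p ^ e) =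
          ∑ i, m j (r * v i) * θ (t * a i ^ p ^ e) := fun j => by
        have := h2 _ (Ideal.mul_mem_left _ t (Ideal.subset_span ⟨_, hI j, rfl⟩))
        simp only at this
        rw [sub_pow_char_pow, mul_sub, map_sub, hsum, sub_eq_zero] at this
        rw [← this]; congr 1; ring
      have : φ (r ^ p ^ e * t) - r * φ t = -∑ i, algebraMap K S (θ (t * a i ^ p ^ e)) *
          (r * v i - ∑ j, algebraMap K S (m j (r * v i)) * v j) := by
        simp only [hφ', hθ, map_sum, map_mul, sum_mul, mul_sum, mul_sub, sum_sub_distrib]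
        rw [neg_sub, sum_comm]
        congr 1
        · exact sum_congr rfl fun i _ => sum_congr rfl fun j _ => by ring
        · exact sum_congr rfl fun i _ => by ring
      rw [this]
      exact neg_mem (Ideal.sum_mem _ fun i _ => Ideal.mul_mem_left _ _ (hv _))

end Pool.Agent.MP_961ca8_al.H86
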